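import Mathlib
import Pool.Agent.Results.MP_24d225_co.Spiral

set_option autoImplicit false

namespace Pool.Agent.W134.SpiralFrozen

open Set Filter Topology Real
open scoped NNReal
open Pool.Agent.Results.MP_24d225_co.Spiral

/-- a local chart with invertible strict derivative extends to a global chart -/
lemma exists_global_chart {h : ℂ → ℝ × ℝ} {h' : ℂ ≃L[ℝ] ℝ × ℝ} {p : ℂ}
    (hh : HasStrictFDerivAt h (h' : ℂ →L[ℝ] ℝ × ℝ) p) (h0 : h p = 0) {A B : Set ℂ}
    (hA : ∀ᶠ q in 𝓝 p, q ∈ A ↔ (h q).2 = 0) (hB : ∀ᶠ q in 𝓝 p, q ∈ B ↔ (h q).1 = 0) :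
    ∃ φ : ℂ ≃ₜ (ℝ × ℝ), φ p = 0 ∧ ∀ q, ‖φ q‖ < 1 →
      ((q ∈ A ↔ (φ q).2 = 0) ∧ (q ∈ B ↔ (φ q).1 = 0)) := by
  have hpos : (0 : ℝ≥0) < ‖(h'.symm : ℝ × ℝ →L[ℝ] ℂ)‖₊⁻¹ := by
    rcases h'.subsingleton_or_nnnorm_symm_pos with h | h
    · exact absurd (h.elim (0:ℂ) 1) (by norm_num)
    · exact inv_pos.2 h
  set K : ℝ≥0 := lipschitzExtensionConstant (ℝ × ℝ) with hK
  have hKpos : 0 < K := lipschitzExtensionConstant_pos _
  obtain ⟨c, hc0, hc⟩ : ∃ c : ℝ≥0, 0 < c ∧ K * c < ‖(h'.symm : ℝ × ℝ →L[ℝ] ℂ)‖₊⁻¹ := by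
    refine ⟨‖(h'.symm : ℝ × ℝ →L[ℝ] ℂ)‖₊⁻¹ / 2 / K, by positivity, ?_⟩
    rw [mul_div_cancel₀ _ hKpos.ne']
    exact NNReal.half_lt_self hpos.ne'
  obtain ⟨s, hs, happ⟩ := hh.approximates_deriv_on_nhds (c := c) (Or.inr hc0)
  obtain ⟨g, hg⟩ := happ.exists_homeomorph_extension (Or.inr hc)
  have hgp : g p = 0 := by rw [← hg (mem_of_mem_nhds hs), h0]
  have hN : s ∩ ({q | q ∈ A ↔ (h q).2 = 0} ∩ {q | q ∈ B ↔ (h q).1 = 0}) ∈ 𝓝 p :=
    inter_mem hs (inter_mem hA hB)
  have hN' := g.isOpenMap.image_mem_nhds hN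
  rw [hgp] at hN'
  obtain ⟨r, hr, hball⟩ := Metric.mem_nhds_iff.1 hN'
  refine ⟨g.trans (Homeomorph.smulOfNeZero (r⁻¹) (inv_ne_zero hr.ne')), ?_, ?_⟩
  · simp [hgp]
  · intro q hq
    simp only [Homeomorph.trans_apply, Homeomorph.smulOfNeZero_apply] at hq ⊢
    rw [norm_smul, norm_inv, Real.norm_of_nonneg hr.le, inv_mul_lt_iff₀ hr, mul_one] at hq
    have : g q ∈ g '' (s ∩ ({q | q ∈ A ↔ (h q).2 = 0} ∩ {q | q ∈ B ↔ (h q).1 = 0})) :=
      hball (by simpa using hq)
    rw [g.injective.mem_set_image] at this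
    obtain ⟨h1, h2, h3⟩ := this
    have h2' : q ∈ A ↔ (h q).2 = 0 := h2
    have h3' : q ∈ B ↔ (h q).1 = 0 := h3
    rw [h2', h3', hg h1]
    have hr' : r⁻¹ ≠ 0 := inv_ne_zero hr.ne'
    constructor
    · simp [hr.ne']
    · simp [hr.ne']

/-- the chart -/
noncomputable def chart (k : ℕ) (q : ℂ) : ℝ × ℝ :=
  ((Complex.log q).re + (Complex.log q).im / (2 * π) + k, (Complex.log q).im)

/-- the linear part of the chart -/
noncomputable def lin : (ℝ × ℝ) ≃L[ℝ] (ℝ × ℝ) :=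
  LinearEquiv.toContinuousLinearEquiv
    { toFun := fun p => (p.1 + p.2 / (2 * π), p.2)
      invFun := fun p => (p.1 - p.2 / (2 * π), p.2)
      map_add' := by intro p q; ext <;> simp; ring
      map_smul' := by intro c p; ext <;> simp; ring
      left_inv := by intro p; ext <;> simp
      right_inv := by intro p; ext <;> simp }

lemma lin_apply (p : ℝ × ℝ) : lin p = (p.1 + p.2 / (2 * π), p.2) := rfl

lemma chart_strict (k : ℕ) {p : ℂ} (hp : p ∈ Complex.slitPlane) :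
    ∃ h' : ℂ ≃L[ℝ] ℝ × ℝ, HasStrictFDerivAt (chart k) (h' : ℂ →L[ℝ] ℝ × ℝ) p := by
  have hp0 : p⁻¹ ≠ 0 := inv_ne_zero (Complex.slitPlane_ne_zero hp)
  have h1 := (Complex.hasStrictDerivAt_log hp).hasStrictFDerivAt_equiv hp0
  have h2 := h1.restrictScalars ℝ
  let m : ℂ ≃L[ℝ] ℂ := (ContinuousLinearEquiv.unitsEquivAut ℂ (Units.mk0 p⁻¹ hp0)).restrictScalars ℝ
  have h3 : HasStrictFDerivAt Complex.log (m : ℂ →L[ℝ] ℂ) p := h2
  have h4 := ((Complex.equivRealProdCLM.trans lin : ℂ ≃L[ℝ] ℝ × ℝ).hasStrictFDerivAt (x := Complex.log p)).comp p h3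
  have h5 := h4.add_const (((k:ℝ), (0:ℝ)) : ℝ × ℝ)
  refine ⟨m.trans (Complex.equivRealProdCLM.trans lin), ?_⟩
  have e : chart k = fun q => ((Complex.equivRealProdCLM.trans lin : ℂ ≃L[ℝ] ℝ × ℝ) ∘ Complex.log) q + (((k:ℝ), (0:ℝ)) : ℝ × ℝ) := by
    funext q
    ext <;> simp [chart, lin_apply]
  rw [e]
  exact h5

/-- the crossing of the spiral and the positive reals is proper, with a global chart -/
lemma proper_chart {n : ℕ} (k : ℕ) (a b : ℝ) (hk1 : 1 ≤ k) (hkn : k + 1 ≤ n) (ha : a = k - 1 / 2) (hb : b = k + 1 / 2) :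
    ∃ φ : ℂ ≃ₜ (ℝ × ℝ), φ (P k 0) = 0 ∧ ∀ q, ‖φ q‖ < 1 →
      ((q ∈ (fun x : ℝ => P x 0) '' Set.Icc a b ↔ (φ q).2 = 0) ∧
       (q ∈ (fun x : ℝ => P x (2 * π * x)) '' Set.Icc 0 n ↔ (φ q).1 = 0)) := by
  have hpi : (0:ℝ) < π := Real.pi_pos
  have hpos : P k 0 = ((Real.exp (-k) : ℝ) : ℂ) := by unfold P; simp
  have hslit : P k 0 ∈ Complex.slitPlane := by
    rw [hpos]; exact Complex.ofReal_mem_slitPlane.mpr (Real.exp_pos _)
  let W : Set ℂ := {z | Real.exp (-(k + 1 / 2)) < ‖z‖ ∧ ‖z‖ < Real.exp (-(k - 1 / 2))}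
  have hW : IsOpen W := (isOpen_lt continuous_const continuous_norm).inter (isOpen_lt continuous_norm continuous_const)
  have hWm : P k 0 ∈ W := by
    refine ⟨?_, ?_⟩
    · rw [norm_P]; exact Real.exp_lt_exp.mpr (by linarith)
    · rw [norm_P]; exact Real.exp_lt_exp.mpr (by linarith)
  have hS : Complex.slitPlane ∩ W ∈ 𝓝 (P k 0) :=
    (Complex.isOpen_slitPlane.inter hW).mem_nhds ⟨hslit, hWm⟩
  have hval : ∀ q, chart k q = ((Complex.log q).re + (Complex.log q).im / (2 * π) + k, (Complex.log q).im) :=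
    fun q => rfl
  -- points of the source in polar form
  have hq : ∀ q ∈ Complex.slitPlane ∩ W, ∃ s θ : ℝ, q = P s θ ∧ -π < θ ∧ θ < π ∧ k - 1 / 2 < s ∧ s < k + 1 / 2 ∧
      chart k q = (-s + θ / (2 * π) + k, θ) := by
    intro q hq
    obtain ⟨h1, h2, h3⟩ := hq
    have hq0 : q ≠ 0 := Complex.slitPlane_ne_zero h1
    have hqn : 0 < ‖q‖ := norm_pos_iff.mpr hq0
    have harg := Complex.mem_slitPlane_iff_arg.mp h1
    refine ⟨-(Complex.log q).re, (Complex.log q).im, ?_, ?_, ?_, ?_, ?_, ?_⟩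
    · unfold P
      rw [neg_neg, Complex.re_add_im, Complex.exp_log hq0]
    · rw [Complex.log_im]; exact Complex.neg_pi_lt_arg q
    · rw [Complex.log_im]
      exact lt_of_le_of_ne (Complex.arg_le_pi q) harg.1
    · rw [Complex.log_re]
      have := (Real.log_lt_iff_lt_exp hqn).mpr h3
      linarith
    · rw [Complex.log_re]
      have := (Real.lt_log_iff_exp_lt hqn).mpr h2
      linarith
    · rw [hval]; simp
  have hk1' : (1:ℝ) ≤ k := by exact_mod_cast hk1
  have hkn' : (k:ℝ) + 1 ≤ n := by exact_mod_cast hkn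
  obtain ⟨h', hh'⟩ := chart_strict k hslit
  refine exists_global_chart hh' ?_ ?_ ?_
  · rw [hval]
    unfold P
    rw [Complex.log_exp (by simp; linarith) (by simp; linarith)]
    simp
  · filter_upwards [hS] with q hqs
    obtain ⟨s, θ, h1, h2, h3, h4, h5, h6⟩ := hq q hqs
    rw [h6]
    simp only
    constructor
    · rintro ⟨x, _, hx⟩
      simp only at hx
      rw [h1, P_eq_iff] at hx
      obtain ⟨_, m, hm⟩ := hx
      have hm0 : m = 0 := by
        have a1 : (m:ℝ) < 1 := by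
          by_contra hcon
          push Not at hcon
          nlinarith
        have a2 : (-1:ℝ) < m := by
          by_contra hcon
          push Not at hcon
          nlinarith
        have b1 : m < 1 := by exact_mod_cast a1
        have b2 : (-1:ℤ) < m := by exact_mod_cast a2
        omega
      rw [hm0] at hm
      simp at hm
      exact hm.symm ▸ rfl
    · intro hθ
      refine ⟨s, ⟨by rw [ha]; exact h4.le, by rw [hb]; exact h5.le⟩, ?_⟩
      simp only
      rw [h1, hθ]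
  · filter_upwards [hS] with q hqs
    obtain ⟨s, θ, h1, h2, h3, h4, h5, h6⟩ := hq q hqs
    rw [h6]
    simp only
    constructor
    · rintro ⟨x, _, hx⟩
      simp only at hx
      rw [h1, P_eq_iff] at hx
      obtain ⟨hxs, m, hm⟩ := hx
      subst hxs
      -- 2 π x = θ + 2 π m
      have hm' : θ = 2 * π * (x - m) := by linarith
      have hmk : m = k := by
        have a1 : ((m:ℝ)) < k + 1 := by
          by_contra hcon
          push Not at hcon
          have : x - m < -1 / 2 := by linarith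
          nlinarith
        have a2 : (k:ℝ) - 1 < m := by
          by_contra hcon
          push Not at hcon
          have : 1 / 2 < x - m := by linarith
          nlinarith
        have b1 : m < (k:ℤ) + 1 := by exact_mod_cast a1
        have b2 : (k:ℤ) - 1 < m := by exact_mod_cast a2
        omega
      rw [hm', hmk]
      field_simp
      push_cast
      ring
    · intro h0
      refine ⟨s, ⟨by linarith, by linarith⟩, ?_⟩
      simp only
      rw [h1, P_eq_iff]
      refine ⟨rfl, k, ?_⟩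
      have : θ / (2 * π) = s - k := by linarith
      rw [div_eq_iff (by positivity)] at this
      rw [this]; push_cast; ring

/-- identification of the plane with `ℝ × ℝ` -/
noncomputable def eR : ℂ ≃ₜ (ℝ × ℝ) := Complex.equivRealProdCLM.toHomeomorph

section conv

variable {n : ℕ} (hn : 1 ≤ n)

lemma exists_path (u v : (spiral n hn).V) : ∃ γ : unitInterval → ℂ, (spiral n hn).graph.Adj u v →
    Continuous γ ∧ Function.Injective γ ∧ γ 0 = (spiral n hn).pos u ∧ γ 1 = (spiral n hn).pos v ∧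
    ∀ e, (spiral n hn).ends e = s(u, v) → Set.range γ = (spiral n hn).arc e := by
  by_cases h : (spiral n hn).graph.Adj u v
  · obtain ⟨e, he⟩ := h
    obtain ⟨γ, h1, h2, h3⟩ := (spiral n hn).isArc e
    rw [he, Sym2.map_mk, Sym2.eq_iff] at h3
    have huniq : ∀ e', (spiral n hn).ends e' = s(u, v) → e' = e := by
      intro e' he'
      exact (spiral n hn).ends_injective (he'.trans he.symm)
    rcases h3 with ⟨h3, h4⟩ | ⟨h3, h4⟩
    · refine ⟨γ, fun _ => ⟨γ.continuous, h1, h3, h4, ?_⟩⟩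
      intro e' he'
      rw [huniq e' he', h2]
    · refine ⟨fun t => γ (unitInterval.symm t), fun _ => ⟨by fun_prop, ?_, ?_, ?_, ?_⟩⟩
      · exact h1.comp unitInterval.symm_bijective.injective
      · simp [h4]
      · simp [h3]
      · intro e' he'
        rw [huniq e' he', ← h2]
        exact unitInterval.symm_bijective.surjective.range_comp γ
  · exact ⟨fun _ => 0, fun h' => absurd h' h⟩

/-- the drawn edges -/
noncomputable def gam (u v : (spiral n hn).V) : unitInterval → ℂ := (exists_path hn u v).choose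

lemma gam_spec {u v : (spiral n hn).V} (h : (spiral n hn).graph.Adj u v) :
    Continuous (gam hn u v) ∧ Function.Injective (gam hn u v) ∧ gam hn u v 0 = (spiral n hn).pos u ∧
    gam hn u v 1 = (spiral n hn).pos v ∧
    ∀ e, (spiral n hn).ends e = s(u, v) → Set.range (gam hn u v) = (spiral n hn).arc e :=
  (exists_path hn u v).choose_spec h

include hn in
/-- crossings of the spiral drawing, with global charts -/
lemma cross {e f : Option (Fin (n + 1))} {p : ℂ} (hef : e ≠ f) (he : p ∈ arcs n e) (hf : p ∈ arcs n f)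
    (hp : ∀ v : Fin (n + 2), P (bb n v) 0 ≠ p) :
    ∃ φ : ℂ ≃ₜ (ℝ × ℝ), φ p = 0 ∧ ∀ q, ‖φ q‖ < 1 →
      ((q ∈ arcs n e ↔ (φ q).2 = 0) ∧ (q ∈ arcs n f ↔ (φ q).1 = 0)) := by
  have key : ∀ (k : Fin (n + 1)), p ∈ arcs n none → p ∈ arcs n (some k) →
      ∃ φ : ℂ ≃ₜ (ℝ × ℝ), φ p = 0 ∧ ∀ q, ‖φ q‖ < 1 →
      ((q ∈ arcs n (some k) ↔ (φ q).2 = 0) ∧ (q ∈ arcs n none ↔ (φ q).1 = 0)) := by
    intro k h1 h2
    have hpk := meet_none_some hn k h1 h2
    rcases Nat.eq_zero_or_pos (k:ℕ) with h0 | h0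
    · exfalso
      apply hp 0
      rw [hpk, h0]; simp [bb_zero]
    · rcases Nat.lt_or_ge (k:ℕ) n with hkn | hkn
      · have hbk : bb n k = (k:ℕ) - 1 / 2 := by
          unfold bb
          have a1 : (1:ℝ) ≤ (k:ℕ) := by exact_mod_cast h0
          have a2 : ((k:ℕ):ℝ) ≤ n := by exact_mod_cast hkn.le
          rw [max_eq_left (by linarith), min_eq_left (by linarith)]
        have hbk1 : bb n (k + 1) = (k:ℕ) + 1 / 2 := by
          unfold bb
          have a1 : (1:ℝ) ≤ (k:ℕ) := by exact_mod_cast h0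
          have a2 : ((k:ℕ):ℝ) + 1 ≤ n := by exact_mod_cast hkn
          push_cast
          rw [max_eq_left (by linarith), min_eq_left (by linarith)]
          ring
        rw [hpk]
        exact proper_chart (k:ℕ) _ _ h0 hkn hbk hbk1
      · exfalso
        have hk : (k:ℕ) = n := by omega
        apply hp (Fin.last (n + 1))
        rw [hpk, hk, Fin.val_last, bb_last]
  have swap : ∀ A B : Set ℂ, (∃ φ : ℂ ≃ₜ (ℝ × ℝ), φ p = 0 ∧ ∀ q, ‖φ q‖ < 1 →
      ((q ∈ A ↔ (φ q).2 = 0) ∧ (q ∈ B ↔ (φ q).1 = 0))) →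
      (∃ φ : ℂ ≃ₜ (ℝ × ℝ), φ p = 0 ∧ ∀ q, ‖φ q‖ < 1 →
      ((q ∈ B ↔ (φ q).2 = 0) ∧ (q ∈ A ↔ (φ q).1 = 0))) := by
    rintro A B ⟨φ, h1, h2⟩
    refine ⟨φ.trans (Homeomorph.prodComm ℝ ℝ), ?_, ?_⟩
    · simp [h1]
    · intro q hq
      have hq' : ‖φ q‖ < 1 := by
        simp only [Homeomorph.trans_apply, Homeomorph.coe_prodComm] at hq
        rw [Prod.norm_def] at hq ⊢
        rw [max_comm]
        exact hq
      obtain ⟨h3, h4⟩ := h2 q hq'
      exact ⟨h4, h3⟩
  rcases e with _ | k <;> rcases f with _ | l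
  · exact absurd rfl hef
  · exact swap _ _ (key l he hf)
  · exact key k hf he
  · exfalso
    rcases lt_trichotomy k l with h | h | h
    · apply hp k.succ
      rw [(meet_some_some hn h he hf).2, Fin.val_succ]
    · exact absurd (by rw [h]) hef
    · apply hp l.succ
      rw [(meet_some_some hn h hf he).2, Fin.val_succ]

/-- two faces that touch at a point of exactly one edge have close levels -/
lemma touch {i j : ℕ} (hi : i ≤ n) (hj : j ≤ n) {e : Option (Fin (n + 1))} {q : ℂ} (hq : q ∈ arcs n e)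
    (hqn : q ∉ (spiral n hn).nodes) (h1 : q ∈ closure (U n i)) (h2 : q ∈ closure (U n j)) : j ≤ i + 1 := by
  obtain ⟨g1, g2, g3⟩ := nonnode hn (e := e) hq hqn
  obtain ⟨a, ha⟩ := lev_osc (n := n) g1 g2 g3
  have k1 : ∃ z, (a ≤ lev n z ∧ lev n z ≤ a + 1) ∧ z ∈ U n i :=
    ((mem_closure_iff_frequently.mp h1).and_eventually ha).exists.imp (fun z hz => ⟨hz.2, hz.1⟩)
  have k2 : ∃ z, (a ≤ lev n z ∧ lev n z ≤ a + 1) ∧ z ∈ U n j :=
    ((mem_closure_iff_frequently.mp h2).and_eventually ha).exists.imp (fun z hz => ⟨hz.2, hz.1⟩)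
  obtain ⟨z1, hz1, hz1'⟩ := k1
  obtain ⟨z2, hz2, hz2'⟩ := k2
  rw [lev_U hi hz1'] at hz1
  rw [lev_U hj hz2'] at hz2
  omega

lemma edge_count : (spiral n hn).graph.edgeSet.ncard = n + 2 := by
  have h1 : (spiral n hn).graph.edgeSet = Set.range (spiral n hn).ends := by
    ext s
    induction s with
    | _ u v => exact Iff.rfl
  rw [h1, Set.ncard_range_of_injective (spiral n hn).ends_injective]
  rw [← card_E hn, Nat.card_eq_fintype_card]

end conv

end Pool.Agent.W134.SpiralFrozen
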